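import Pool.Agent.H964.CW.Stm
import Pool.Agent.H344.QC.PH

/-! # CW-PHg: the mixed fourth order correlation, general exponent -/

set_option autoImplicit false

open MeasureTheory ProbabilityTheory Filter Finset

namespace Pool.Agent.H282.CW

open Pool.Agent.H964.QC Pool.Agent.H964.CW
open Pool.Agent.H344.QC (unrollN EVN EVN_le RR_nonneg hh_one_le sum_shift_le)

variable {V : Type} [Fintype V] [DecidableEq V] {C0 : ℝ} {N0 : ℕ}

theorem hh_sq (g : ℝ) (t a : ℕ) : hh g t a = hh (g / 2) t a ^ 2 := by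
  unfold hh
  have hx : (0 : ℝ) < ((t : ℝ) + 1) / ((a : ℝ) + 1) := by positivity
  obtain ⟨x, hxd⟩ : ∃ x : ℝ, x = ((t : ℝ) + 1) / ((a : ℝ) + 1) := ⟨_, rfl⟩
  rw [← hxd] at hx ⊢
  have h1 : (x ^ (g / 2)) ^ 2 = x ^ g := by
    rw [← Real.rpow_natCast, ← Real.rpow_mul hx.le]
    congr 1
    push_cast
    ring
  have h2 : 0 ≤ x ^ (g / 2) := Real.rpow_nonneg hx.le _
  rw [← h1]
  rcases le_total 1 (x ^ (g / 2)) with h | h
  · rw [max_eq_right h, max_eq_right (by nlinarith)]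
  · rw [max_eq_left h, max_eq_left (by nlinarith)]
    norm_num

theorem t_PHg : S_PHg := by
  intro hT1 hT3 hRR hHH hOV hTH C0 κ hC0 hκ
  have hHH' := hHH
  obtain ⟨Ch, hCh, hHHg⟩ := hHH'
  obtain ⟨C8, hC8d⟩ : ∃ C8 : ℝ, C8 = 2 * Ch := ⟨_, rfl⟩
  have hC8 : 1 ≤ C8 := by rw [hC8d]; linarith
  obtain ⟨CT, hCT, hTH'⟩ := hTH hT1 hRR hHH C0 κ hC0 hκ
  have hCh0 : 0 ≤ Ch := zero_le_one.trans hCh
  have hC80 : 0 ≤ C8 := zero_le_one.trans hC8
  have hC00 : 0 ≤ C0 := zero_le_one.trans hC0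
  obtain ⟨C1, hC1⟩ : ∃ C1 : ℝ, C1 = (2 * C0 + 6 * (κ + 1) * C0 ^ 2) * Ch := ⟨_, rfl⟩
  obtain ⟨C2, hC2⟩ : ∃ C2 : ℝ, C2 = 2 * (4 * C0 + 2 * κ * C0 ^ 2) * C8 := ⟨_, rfl⟩
  have hC10 : 0 ≤ C1 := by rw [hC1]; positivity
  have hC20 : 0 ≤ C2 := by rw [hC2]; positivity
  refine ⟨C1 + C2 + CT, by linarith, ?_⟩
  obtain ⟨C, hCd⟩ : ∃ C : ℝ, C = C1 + C2 + CT := ⟨_, rfl⟩
  rw [← hCd]
  have hC1' : 1 ≤ C := by linarith
  intro V _ _ N0 W Ω _ P _ s2 E g η w t T hs hN ht hT hRT hE hg0 hg4 hC hw hw1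
  obtain ⟨hanti, hsum, hsum0⟩ := hHHg g hg0 hg4
  obtain ⟨hanti8, hsum8, hsum08⟩ := hHHg (g / 2) (by linarith) (by linarith)
  obtain ⟨Lg, hLg⟩ : ∃ Lg : ℝ, Lg = 1 / g + Real.log (1 + (T : ℝ) / t) := ⟨_, rfl⟩
  have hlog0 : 0 ≤ Real.log (1 + (T : ℝ) / t) := by
    apply Real.log_nonneg
    have : 0 ≤ (T : ℝ) / t := by positivity
    linarith
  have hLg1 : 1 ≤ Lg := by
    have h4 : 1 ≤ 1 / g := by
      rw [le_div_iff₀ hg0]; linarith
    linarith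
  have hR0 : 0 ≤ RR T := RR_nonneg hRR T
  have hden : 0 < 1 - s2 * RR T := by linarith
  have hE1 : 1 ≤ E := by
    rw [hE, le_div_iff₀ hden]
    have := mul_nonneg hs.le hR0
    linarith
  have hE0 : 0 < E := by linarith
  have hELg : 1 ≤ E * Lg := one_le_mul_of_one_le_of_one_le hE1 hLg1
  have hsEL : 0 ≤ s2 * (E * Lg) := by positivity
  have hG4 := hTH' V N0 W Ω P s2 E g η t T hs hN ht hT hRT hE hg0 hg4 (by
    rw [← hLg]
    rw [← hLg] at hC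
    have h1 : CT * (s2 * (E * Lg)) ≤ C * (s2 * (E * Lg)) :=
      mul_le_mul_of_nonneg_right (by linarith) hsEL
    have h2 : CT * s2 * E * Lg = CT * (s2 * (E * Lg)) := by ring
    have h3 : C * s2 * E * Lg = C * (s2 * (E * Lg)) := by ring
    linarith)
  rw [← hLg] at hC ⊢
  have hs1 : s2 ≤ 1 := by
    have h1 : s2 * 1 ≤ s2 * (E * Lg) := mul_le_mul_of_nonneg_left hELg hs.le
    have h2 : 1 * (s2 * (E * Lg)) ≤ C * (s2 * (E * Lg)) :=
      mul_le_mul_of_nonneg_right hC1' hsEL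
    have h3 : C * (s2 * (E * Lg)) = C * s2 * E * Lg := by ring
    linarith
  have hEi : 1 / E = 1 - s2 * RR T := by rw [hE, one_div_one_div]
  obtain ⟨h, hh_def⟩ : ∃ h : ℕ → ℝ, h = hh g t := ⟨_, rfl⟩
  obtain ⟨q, hq_def⟩ : ∃ q : ℕ → ℝ, q = hh (g / 2) t := ⟨_, rfl⟩
  have hh1 : ∀ n, 1 ≤ h n := fun n => by rw [hh_def]; exact hh_one_le _ _ _
  have hh0 : ∀ n, 0 ≤ h n := fun n => zero_le_one.trans (hh1 n)
  have hq0 : ∀ n, 0 ≤ q n := fun n => zero_le_one.trans (by rw [hq_def]; exact hh_one_le _ _ _)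
  have hq : ∀ n, h n = q n ^ 2 := fun n => by rw [hh_def, hq_def]; exact hh_sq g t n
  have han : Antitone h := by rw [hh_def]; exact hanti t
  rw [← hh_def]
  rw [← hh_def] at hG4
  have hsumh : ∀ a : ℕ, ∑ k ∈ Finset.Icc 1 T, h k / ((a : ℝ) + k) ≤ Ch * Lg * h a := by
    intro a; rw [hh_def, hLg]; exact hsum t T a ht
  have hsum0h : ∀ a : ℕ, h 0 * ∑ k ∈ Finset.Icc 1 T, 1 / ((k : ℝ) * ((a : ℝ) + k)) ≤ Ch * h a := by
    intro a; rw [hh_def]; exact hsum0 t T a ht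
  have hsumq : ∀ a : ℕ, ∑ k ∈ Finset.Icc 1 T, q k / ((a : ℝ) + k) ≤ C8 * Lg * q a := by
    intro a
    have h8 := hsum8 t T a ht
    rw [← hq_def] at h8
    refine h8.trans (mul_le_mul_of_nonneg_right ?_ (hq0 a))
    have h2g : 1 / (g / 2) = 2 * (1 / g) := by field_simp
    rw [hC8d, hLg, h2g]
    have : Ch * Real.log (1 + (T : ℝ) / t) ≤ 2 * (Ch * Real.log (1 + (T : ℝ) / t)) := by
      have := mul_nonneg hCh0 hlog0
      linarith
    calc Ch * (2 * (1 / g) + Real.log (1 + (T : ℝ) / t)) =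
          2 * Ch * (1 / g) + Ch * Real.log (1 + (T : ℝ) / t) := by ring
      _ ≤ 2 * Ch * (1 / g) + 2 * (Ch * Real.log (1 + (T : ℝ) / t)) := by linarith
      _ = 2 * Ch * (1 / g + Real.log (1 + (T : ℝ) / t)) := by ring
  have hsum0q : ∀ a : ℕ, q 0 * ∑ k ∈ Finset.Icc 1 T, 1 / ((k : ℝ) * ((a : ℝ) + k)) ≤ C8 * q a := by
    intro a
    have h8 := hsum08 t T a ht
    rw [← hq_def] at h8
    refine h8.trans (mul_le_mul_of_nonneg_right ?_ (hq0 a))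
    rw [hC8d]; linarith
  obtain ⟨F, hF⟩ : ∃ F : ℝ, F = C * (s2 * E * Lg) * E := ⟨_, rfl⟩
  have hF0 : 0 ≤ F := by rw [hF]; positivity
  obtain ⟨S, hSd⟩ : ∃ S : ℝ, S = Real.sqrt (F * (2 * E)) := ⟨_, rfl⟩
  have hS0 : 0 ≤ S := by rw [hSd]; exact Real.sqrt_nonneg _
  have hS2 : S ^ 2 = F * (2 * E) := by rw [hSd]; exact Real.sq_sqrt (by positivity)
  have hFE : F ≤ E := by
    have h1 : C * (s2 * E * Lg) ≤ 1 := by
      have : C * (s2 * E * Lg) = C * s2 * E * Lg := by ring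
      linarith
    have := mul_le_mul_of_nonneg_right h1 hE0.le
    rw [hF]; linarith
  have hSE : S ≤ 2 * E := by
    have h1 : S ^ 2 ≤ (2 * E) ^ 2 := by rw [hS2]; nlinarith
    exact le_of_sq_le_sq h1 (by positivity)
  rw [← hF]
  have hwts := hOV V C0 N0 W w hw
  have hwt0 := hwts.1
  have hwt1 := hwts.2.2.2.2.2.2.1 hw1
  intro j
  induction j using Nat.strong_induction_on with
  | _ j ih =>
  intro y hjT
  rcases Nat.eq_zero_or_pos T with hT0 | hTpos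
  · have hj0 : j = 0 := by omega
    subst hj0
    have h1 : N4 W P η w T 0 0 y = 0 := by
      unfold N4 XX
      simp [Zr]
    rw [h1]
    exact mul_nonneg hF0 (hh0 _)
  have h1 := unrollN hT3 W P hs.le hκ hN w hw T hTpos j 0 y hjT
  obtain ⟨m, hm⟩ : ∃ m : ℕ, m = T - j := ⟨_, rfl⟩
  rw [← hm]
  have h2 : ∀ k ∈ Finset.range j, EVN W P η s2 κ w T (0 + (k + 1)) (j - (k + 1)) y ≤
      s2 * (rr (k + 1) * (F * h m)) + 2 * C0 * s2 * E * (h (k + 1) / ((m : ℝ) + ((k + 1 : ℕ) : ℝ)))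
      + 4 * C0 * s2 * S * (q m * (q (k + 1) / ((m : ℝ) + ((k + 1 : ℕ) : ℝ))))
      + 2 * κ * C0 ^ 2 * s2 * S * (q m * (q 0 * (1 / (((k + 1 : ℕ) : ℝ) *
        ((m : ℝ) + ((k + 1 : ℕ) : ℝ))))))
      + 6 * (κ + 1) * C0 ^ 2 * s2 * E * (h 0 * (1 / (((k + 1 : ℕ) : ℝ) *
        ((m : ℝ) + ((k + 1 : ℕ) : ℝ))))) := by
    intro k hk
    have hkj : k < j := Finset.mem_range.1 hk
    rw [zero_add, ← Nat.cast_add m (k + 1)]
    have hlt : j - (k + 1) < j := by omega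
    refine EVN_le W P (η := η) hs.le hs1 hκ hF0 hE0.le hS0 hS2 hq0 hq han
      (k := k + 1) (l := m + (k + 1)) (i := j - (k + 1)) (m := m) (by omega) (by omega) (by omega)
      (by omega) (fun z => hwt0 _ z) (fun z => hwt1.2.1 _ z (by omega) (by omega))
      (hwt1.2.2 _ (by omega) (by omega)) ?_ ?_ ?_ ?_ y
    · intro z
      refine (ih _ hlt z (by omega)).trans ?_
      exact mul_le_mul_of_nonneg_left (han (by omega)) hF0
    · intro a y' v'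
      exact (hT1 V C0 N0 W Ω P s2 κ η hs.le hκ hN (j - (k + 1)) 0 a y' v').1 y' v'
    · intro y' v'
      exact hG4 _ _ y' v' (by omega)
    · intro y' v'
      exact hG4 _ _ y' v' (by omega)
  have h3 := Finset.sum_le_sum h2
  rw [Finset.sum_add_distrib, Finset.sum_add_distrib, Finset.sum_add_distrib,
    Finset.sum_add_distrib, ← Finset.mul_sum, ← Finset.mul_sum, ← Finset.mul_sum,
    ← Finset.mul_sum, ← Finset.mul_sum, ← Finset.sum_mul, ← Finset.mul_sum, ← Finset.mul_sum,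
    ← Finset.mul_sum, ← Finset.mul_sum] at h3
  have s1 : ∑ k ∈ Finset.range j, rr (k + 1) ≤ RR T :=
    sum_shift_le (f := rr) (fun k _ => (hRR.1 k).le) hjT
  have s2' : ∑ k ∈ Finset.range j, h (k + 1) / ((m : ℝ) + ((k + 1 : ℕ) : ℝ)) ≤
      Ch * Lg * h m :=
    (sum_shift_le (f := fun k => h k / ((m : ℝ) + (k : ℝ)))
      (fun k _ => div_nonneg (hh0 k) (by positivity)) hjT).trans (hsumh m)
  have s3 : h 0 * ∑ k ∈ Finset.range j, 1 / (((k + 1 : ℕ) : ℝ) * ((m : ℝ) + ((k + 1 : ℕ) : ℝ))) ≤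
      Ch * h m :=
    (mul_le_mul_of_nonneg_left (sum_shift_le (f := fun k => 1 / ((k : ℝ) * ((m : ℝ) + (k : ℝ))))
      (fun k _ => by positivity) hjT) (hh0 0)).trans (hsum0h m)
  have s3' : Ch * h m ≤ Ch * Lg * h m := by
    have : Ch * 1 ≤ Ch * Lg := mul_le_mul_of_nonneg_left hLg1 hCh0
    have := mul_le_mul_of_nonneg_right this (hh0 m)
    linarith
  have s4 : ∑ k ∈ Finset.range j, q (k + 1) / ((m : ℝ) + ((k + 1 : ℕ) : ℝ)) ≤
      C8 * Lg * q m :=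
    (sum_shift_le (f := fun k => q k / ((m : ℝ) + (k : ℝ)))
      (fun k _ => div_nonneg (hq0 k) (by positivity)) hjT).trans (hsumq m)
  have s5 : q 0 * ∑ k ∈ Finset.range j, 1 / (((k + 1 : ℕ) : ℝ) * ((m : ℝ) + ((k + 1 : ℕ) : ℝ))) ≤
      C8 * q m :=
    (mul_le_mul_of_nonneg_left (sum_shift_le (f := fun k => 1 / ((k : ℝ) * ((m : ℝ) + (k : ℝ))))
      (fun k _ => by positivity) hjT) (hq0 0)).trans (hsum0q m)
  have s5' : C8 * q m ≤ C8 * Lg * q m := by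
    have : C8 * 1 ≤ C8 * Lg := mul_le_mul_of_nonneg_left hLg1 hC80
    have := mul_le_mul_of_nonneg_right this (hq0 m)
    linarith
  have e1 : s2 * ((∑ k ∈ Finset.range j, rr (k + 1)) * (F * h m)) ≤ s2 * (RR T * (F * h m)) :=
    mul_le_mul_of_nonneg_left (mul_le_mul_of_nonneg_right s1 (mul_nonneg hF0 (hh0 m))) hs.le
  have e2 : 2 * C0 * s2 * E * ∑ k ∈ Finset.range j, h (k + 1) / ((m : ℝ) + ((k + 1 : ℕ) : ℝ)) ≤
      2 * C0 * s2 * E * (Ch * Lg * h m) := mul_le_mul_of_nonneg_left s2' (by positivity)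
  have e3 : 4 * C0 * s2 * S * (q m * ∑ k ∈ Finset.range j,
      q (k + 1) / ((m : ℝ) + ((k + 1 : ℕ) : ℝ))) ≤ 4 * C0 * s2 * (2 * E) * (C8 * Lg * h m) := by
    have a1 : q m * ∑ k ∈ Finset.range j, q (k + 1) / ((m : ℝ) + ((k + 1 : ℕ) : ℝ)) ≤
        C8 * Lg * h m := by
      refine (mul_le_mul_of_nonneg_left s4 (hq0 m)).trans (le_of_eq ?_)
      rw [hq m]; ring
    refine mul_le_mul (mul_le_mul_of_nonneg_left hSE (by positivity)) a1 ?_ (by positivity)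
    exact mul_nonneg (hq0 m) (Finset.sum_nonneg fun k _ => div_nonneg (hq0 _) (by positivity))
  have e4 : 2 * κ * C0 ^ 2 * s2 * S * (q m * (q 0 * ∑ k ∈ Finset.range j,
      1 / (((k + 1 : ℕ) : ℝ) * ((m : ℝ) + ((k + 1 : ℕ) : ℝ))))) ≤
      2 * κ * C0 ^ 2 * s2 * (2 * E) * (C8 * Lg * h m) := by
    have a1 : q m * (q 0 * ∑ k ∈ Finset.range j,
        1 / (((k + 1 : ℕ) : ℝ) * ((m : ℝ) + ((k + 1 : ℕ) : ℝ)))) ≤ C8 * Lg * h m := by
      refine (mul_le_mul_of_nonneg_left (s5.trans s5') (hq0 m)).trans (le_of_eq ?_)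
      rw [hq m]; ring
    refine mul_le_mul (mul_le_mul_of_nonneg_left hSE (by positivity)) a1 ?_ (by positivity)
    exact mul_nonneg (hq0 m) (mul_nonneg (hq0 0) (Finset.sum_nonneg fun k _ => by positivity))
  have e5 : 6 * (κ + 1) * C0 ^ 2 * s2 * E * (h 0 * ∑ k ∈ Finset.range j,
      1 / (((k + 1 : ℕ) : ℝ) * ((m : ℝ) + ((k + 1 : ℕ) : ℝ)))) ≤
      6 * (κ + 1) * C0 ^ 2 * s2 * E * (Ch * Lg * h m) :=
    mul_le_mul_of_nonneg_left (s3.trans s3') (by positivity)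
  have e6 : 2 * C0 * s2 * E * (Ch * Lg * h m) + 4 * C0 * s2 * (2 * E) * (C8 * Lg * h m) +
      2 * κ * C0 ^ 2 * s2 * (2 * E) * (C8 * Lg * h m) +
      6 * (κ + 1) * C0 ^ 2 * s2 * E * (Ch * Lg * h m) = (C1 + C2) * (s2 * (E * Lg)) * h m := by
    rw [hC1, hC2]; ring
  have e7 : (C1 + C2) * (s2 * (E * Lg)) * h m ≤ C * (s2 * (E * Lg)) * h m :=
    mul_le_mul_of_nonneg_right (mul_le_mul_of_nonneg_right (by linarith) hsEL) (hh0 m)
  have e8 : s2 * (RR T * (F * h m)) = F * h m - C * (s2 * (E * Lg)) * h m := by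
    have a1 : s2 * RR T = 1 - 1 / E := by rw [hEi]; ring
    have a2 : E * (1 / E) = 1 := mul_one_div_cancel hE0.ne'
    calc s2 * (RR T * (F * h m)) = (s2 * RR T) * (F * h m) := by ring
      _ = F * h m - (1 / E) * F * h m := by rw [a1]; ring
      _ = F * h m - C * (s2 * (E * Lg)) * (E * (1 / E)) * h m := by rw [hF]; ring
      _ = _ := by rw [a2, mul_one]
  linarith

end Pool.Agent.H282.CW
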