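import Pool.Agent.H964.CW.Stm2

/-! # CW-WLD: the cost of very bad weights after a block -/

set_option autoImplicit false

open MeasureTheory ProbabilityTheory Filter Finset

namespace Pool.Agent.H282.CW.WLD

open Pool.Agent.H964.QC Pool.Agent.H964.CW

/-! ## Real analysis -/

theorem evA (n : ℕ) (c : ℝ) (hc : 0 < c) :
    ∀ᶠ x : ℝ in atTop, x ^ n * Real.exp (-(x ^ c) / 2) ≤ 1 := by
  have h1 := (tendsto_rpow_mul_exp_neg_mul_atTop_nhds_zero ((n : ℝ) / c) (1 / 2)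
    (by norm_num)).comp (tendsto_rpow_atTop hc)
  have h2 := h1.eventually (gt_mem_nhds (zero_lt_one' ℝ))
  filter_upwards [h2, eventually_gt_atTop 0] with x hx hx0
  simp only [Function.comp_apply] at hx
  have h3 : (x ^ c) ^ ((n : ℝ) / c) = x ^ n := by
    rw [← Real.rpow_mul hx0.le, mul_div_cancel₀ _ hc.ne', Real.rpow_natCast]
  rw [h3] at hx
  have h4 : -(1 / 2) * x ^ c = -(x ^ c) / 2 := by ring
  rw [h4] at hx
  exact hx.le

theorem sum_sq_inv (K : ℕ) : ∑ i ∈ range K, 1 / ((i : ℝ) + 1) ^ 2 ≤ 2 - 2 / ((K : ℝ) + 1) := by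
  induction K with
  | zero => simp
  | succ K ih =>
    rw [sum_range_succ]
    have h1 : 1 / ((K : ℝ) + 1) ^ 2 ≤ 2 / ((K : ℝ) + 1) - 2 / ((K : ℝ) + 2) := by
      have e : 2 / ((K : ℝ) + 1) - 2 / ((K : ℝ) + 2) = 2 / (((K : ℝ) + 1) * ((K : ℝ) + 2)) := by
        field_simp
        ring
      rw [e, div_le_div_iff₀ (by positivity) (by positivity)]
      have : (0 : ℝ) ≤ K := Nat.cast_nonneg K
      nlinarith
    have e2 : ((K + 1 : ℕ) : ℝ) + 1 = (K : ℝ) + 2 := by push_cast; ring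
    rw [e2]
    linarith

/-- the sum of the terms -/
theorem sum_terms {C c U0 L b : ℝ} (hC : 0 ≤ C) (hU1 : 1 ≤ U0)
    (hU : ∀ u : ℝ, U0 ≤ u → u ^ 19 * Real.exp (-(u ^ (1 / 20 : ℝ)) / 2) ≤ 1) (hL1 : 1 ≤ L)
    (hL : L ^ 20 * Real.exp (-(L ^ c) / 2) ≤ 1) (hb : b = L ^ (20 * c)) (hbU : U0 ≤ b) (K : ℕ) :
    ∑ i ∈ range K, C * (1 + (b + i + 1) + L) ^ 17 * Real.exp (-((b + i) ^ (1 / 20 : ℝ))) ≤
      2 * C * 4 ^ 17 * (L ^ 3)⁻¹ := by
  have hL0 : 0 < L := by linarith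
  have hb0 : 0 < b := by linarith
  have hb20 : b ^ (1 / 20 : ℝ) = L ^ c := by
    rw [hb, ← Real.rpow_mul hL0.le]
    congr 1
    ring
  have hterm : ∀ i ∈ range K,
      C * (1 + (b + i + 1) + L) ^ 17 * Real.exp (-((b + i) ^ (1 / 20 : ℝ))) ≤
        C * 4 ^ 17 * (L ^ 3)⁻¹ * (1 / ((i : ℝ) + 1) ^ 2) := by
    intro i _
    have hi0 : (0 : ℝ) ≤ i := Nat.cast_nonneg i
    obtain ⟨u, hu⟩ : ∃ u : ℝ, u = b + i := ⟨_, rfl⟩
    have hub : b ≤ u := by rw [hu]; linarith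
    have huU : U0 ≤ u := hbU.trans hub
    have hu1 : 1 ≤ u := hU1.trans huU
    have hu0 : 0 < u := by linarith
    have hui : (i : ℝ) + 1 ≤ u := by rw [hu]; linarith
    have e1 : 1 + (b + (i : ℝ) + 1) + L ≤ 4 * (u * L) := by
      rw [← hu]
      nlinarith [mul_nonneg (sub_nonneg.2 hu1) (sub_nonneg.2 hL1)]
    have e2 : (1 + (b + (i : ℝ) + 1) + L) ^ 17 ≤ (4 * (u * L)) ^ 17 :=
      pow_le_pow_left₀ (by positivity) e1 17
    have e3 : Real.exp (-(u ^ (1 / 20 : ℝ))) ≤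
        Real.exp (-(u ^ (1 / 20 : ℝ)) / 2) * Real.exp (-(L ^ c) / 2) := by
      rw [← Real.exp_add]
      refine Real.exp_le_exp.2 ?_
      have : b ^ (1 / 20 : ℝ) ≤ u ^ (1 / 20 : ℝ) :=
        Real.rpow_le_rpow hb0.le hub (by norm_num)
      rw [hb20] at this
      linarith
    have e4 := hU u huU
    have e5 : u ^ 17 * Real.exp (-(u ^ (1 / 20 : ℝ)) / 2) ≤ 1 / u ^ 2 := by
      rw [le_div_iff₀ (by positivity)]
      calc u ^ 17 * Real.exp (-(u ^ (1 / 20 : ℝ)) / 2) * u ^ 2 =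
            u ^ 19 * Real.exp (-(u ^ (1 / 20 : ℝ)) / 2) := by ring
        _ ≤ 1 := e4
    have e6 : L ^ 17 * Real.exp (-(L ^ c) / 2) ≤ (L ^ 3)⁻¹ := by
      rw [← one_div, le_div_iff₀ (by positivity)]
      calc L ^ 17 * Real.exp (-(L ^ c) / 2) * L ^ 3 =
            L ^ 20 * Real.exp (-(L ^ c) / 2) := by ring
        _ ≤ 1 := hL
    have e7 : 1 / u ^ 2 ≤ 1 / ((i : ℝ) + 1) ^ 2 :=
      one_div_le_one_div_of_le (by positivity) (pow_le_pow_left₀ (by positivity) hui 2)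
    rw [← hu] at e2 ⊢
    calc C * (1 + (u + 1) + L) ^ 17 * Real.exp (-(u ^ (1 / 20 : ℝ)))
        ≤ C * (4 * (u * L)) ^ 17 *
          (Real.exp (-(u ^ (1 / 20 : ℝ)) / 2) * Real.exp (-(L ^ c) / 2)) := by
          have := Real.exp_pos (-(u ^ (1 / 20 : ℝ)))
          refine mul_le_mul (mul_le_mul_of_nonneg_left e2 hC) e3 this.le (by positivity)
      _ = C * 4 ^ 17 * (L ^ 17 * Real.exp (-(L ^ c) / 2)) *
          (u ^ 17 * Real.exp (-(u ^ (1 / 20 : ℝ)) / 2)) := by ring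
      _ ≤ C * 4 ^ 17 * (L ^ 3)⁻¹ * (1 / ((i : ℝ) + 1) ^ 2) := by
          refine mul_le_mul (mul_le_mul_of_nonneg_left e6 (by positivity)) (e5.trans e7)
            (by positivity) (by positivity)
  refine (Finset.sum_le_sum hterm).trans ?_
  rw [← Finset.mul_sum]
  have h2 : ∑ i ∈ range K, 1 / ((i : ℝ) + 1) ^ 2 ≤ 2 :=
    (sum_sq_inv K).trans (by
      have : (0 : ℝ) ≤ 2 / ((K : ℝ) + 1) := by positivity
      linarith)
  calc C * 4 ^ 17 * (L ^ 3)⁻¹ * ∑ i ∈ range K, 1 / ((i : ℝ) + 1) ^ 2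
      ≤ C * 4 ^ 17 * (L ^ 3)⁻¹ * 2 := mul_le_mul_of_nonneg_left h2 (by positivity)
    _ = _ := by ring

/-- the last term -/
theorem top_term {C X b : ℝ} (hX1 : 1 ≤ X)
    (hX : X ^ 103 * Real.exp (-(X ^ (1 / 400 : ℝ)) / 2) ≤ 1)
    (hb : X ^ (1 / 20 : ℝ) / 8 ≤ b) :
    (C * X) ^ 100 * Real.exp (-(b ^ (1 / 20 : ℝ))) ≤ C ^ 100 * (X ^ 3)⁻¹ := by
  have hX0 : 0 < X := by linarith
  have h1 : X ^ (1 / 400 : ℝ) / 2 ≤ b ^ (1 / 20 : ℝ) := by
    have h2 : (X ^ (1 / 20 : ℝ) / 8) ^ (1 / 20 : ℝ) ≤ b ^ (1 / 20 : ℝ) :=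
      Real.rpow_le_rpow (by positivity) hb (by norm_num)
    rw [Real.div_rpow (by positivity) (by norm_num), ← Real.rpow_mul hX0.le] at h2
    have e : (1 / 20 : ℝ) * (1 / 20) = 1 / 400 := by norm_num
    rw [e] at h2
    refine le_trans ?_ h2
    have h8 : (8 : ℝ) ^ (1 / 20 : ℝ) ≤ 2 := by
      have : (8 : ℝ) ^ (1 / 20 : ℝ) ≤ ((2 : ℝ) ^ (20 : ℝ)) ^ (1 / 20 : ℝ) :=
        Real.rpow_le_rpow (by norm_num) (by norm_num) (by norm_num)
      rw [← Real.rpow_mul (by norm_num)] at this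
      have e' : (20 : ℝ) * (1 / 20) = 1 := by norm_num
      rw [e', Real.rpow_one] at this
      exact this
    exact div_le_div_of_nonneg_left (by positivity) (by positivity) h8
  have h2 : Real.exp (-(b ^ (1 / 20 : ℝ))) ≤ Real.exp (-(X ^ (1 / 400 : ℝ)) / 2) :=
    Real.exp_le_exp.2 (by linarith)
  calc (C * X) ^ 100 * Real.exp (-(b ^ (1 / 20 : ℝ)))
      ≤ (C * X) ^ 100 * Real.exp (-(X ^ (1 / 400 : ℝ)) / 2) :=
        mul_le_mul_of_nonneg_left h2 (by positivity)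
    _ = C ^ 100 * (X ^ 3)⁻¹ * (X ^ 103 * Real.exp (-(X ^ (1 / 400 : ℝ)) / 2)) := by
        field_simp
    _ ≤ C ^ 100 * (X ^ 3)⁻¹ * 1 := mul_le_mul_of_nonneg_left hX (by positivity)
    _ = _ := by ring

/-! ## Square integrable functions -/

variable {Ω : Type} [MeasurableSpace Ω] {P : Measure Ω}

theorem sq_mono {f : Ω → ℝ} {v v' : ℝ} (h : Sq P f v) (hv : v ≤ v') : Sq P f v' :=
  ⟨h.1, h.2.trans hv⟩

theorem sq_add {f g : Ω → ℝ} {v v' : ℝ} (h : Sq P f v) (h' : Sq P g v')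
    (h0 : ∀ ω, f ω * g ω = 0) : Sq P (fun ω => f ω + g ω) (v + v') := by
  refine ⟨h.1.add h'.1, ?_⟩
  have e : ∀ ω, (f ω + g ω) ^ 2 = f ω ^ 2 + g ω ^ 2 := fun ω => by
    have := h0 ω
    linear_combination 2 * this
  simp_rw [e]
  rw [integral_add h.1.integrable_sq h'.1.integrable_sq]
  exact add_le_add h.2 h'.2

theorem sq_levels {E : Type} (f : Ω → E → ℝ) (g : Ω → E) (G : ℕ → Set E)
    (hG : ∀ i, G i ⊆ G (i + 1)) (a : ℕ → ℝ) (K : ℕ) : ∀ (r : ℝ),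
    (∀ i < K, Sq P (fun ω => (G (i + 1) \ G i).indicator (f ω) (g ω)) (a i)) →
    Sq P (fun ω => (G K)ᶜ.indicator (f ω) (g ω)) r →
    Sq P (fun ω => (G 0)ᶜ.indicator (f ω) (g ω)) (∑ i ∈ range K, a i + r) := by
  induction K with
  | zero =>
    intro r _ hr
    simpa using hr
  | succ K ih =>
    intro r ha hr
    have h1 := sq_add (ha K (Nat.lt_succ_self K)) hr (by
      intro ω
      by_cases hm : g ω ∈ G (K + 1)
      · rw [Set.indicator_of_notMem (s := (G (K + 1))ᶜ) (fun h => h hm), mul_zero]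
      · rw [Set.indicator_of_notMem (s := G (K + 1) \ G K) (fun h => hm h.1), zero_mul])
    have e : (fun ω => (G (K + 1) \ G K).indicator (f ω) (g ω) +
        (G (K + 1))ᶜ.indicator (f ω) (g ω)) = fun ω => (G K)ᶜ.indicator (f ω) (g ω) := by
      funext ω
      by_cases hm : g ω ∈ G (K + 1)
      · rw [Set.indicator_of_notMem (s := (G (K + 1))ᶜ) (fun h => h hm), add_zero]
        by_cases hk : g ω ∈ G K
        · rw [Set.indicator_of_notMem (s := G (K + 1) \ G K) (fun h => h.2 hk),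
            Set.indicator_of_notMem (s := (G K)ᶜ) (fun h => h hk)]
        · rw [Set.indicator_of_mem (s := G (K + 1) \ G K) ⟨hm, hk⟩,
            Set.indicator_of_mem (s := (G K)ᶜ) hk]
      · rw [Set.indicator_of_mem (s := (G (K + 1))ᶜ) hm,
          Set.indicator_of_notMem (s := G (K + 1) \ G K) (fun h => hm h.1), zero_add,
          Set.indicator_of_mem (s := (G K)ᶜ) (fun h => hm (hG K h))]
    rw [e] at h1
    have h2 := ih (a K + r) (fun i hi => ha i (Nat.lt_succ_of_lt hi)) h1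
    rw [sum_range_succ]
    rw [← add_assoc] at h2
    exact h2

theorem good_mono {V : Type} [Fintype V] [DecidableEq V] {C0 : ℝ} {N0 : ℕ} {W : Wlk V C0 N0}
    {t : ℕ} {B B' : ℝ} {w : V → ℝ} (h : Good W t B w) (hB : B ≤ B') : Good W t B' w :=
  { nonneg := h.nonneg
    sum := h.sum
    cls := h.cls
    ov := fun n hn hnt => (h.ov n hn hnt).trans (div_le_div_of_nonneg_right hB (Real.sqrt_nonneg _))
    spread := h.spread.trans (mul_le_mul_of_nonneg_right hB (Nat.cast_nonneg _)) }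

theorem noiseI_shift {V : Type} [Fintype V] [DecidableEq V] {s2 κ : ℝ} {η : ℕ → V → Ω → ℝ}
    (hN : NoiseI P s2 κ η) (j : ℕ) : NoiseI P s2 κ (fun n v => η (j + n) v) := by
  have hinj : Function.Injective (fun i : ℕ × V => ((j + i.1, i.2) : ℕ × V)) := by
    rintro ⟨a, u⟩ ⟨b, v⟩ hab
    simp only [Prod.mk.injEq, Nat.add_left_cancel_iff] at hab
    rw [hab.1, hab.2]
  exact ⟨
      { meas := fun n v => hN.1.meas (j + n) v
        indep := iIndepFun.precomp (f := fun i : ℕ × V => η i.1 i.2) hinj hN.1.indep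
        gt := fun n v ω => hN.1.gt (j + n) v ω
        int4 := fun n v => hN.1.int4 (j + n) v
        m1 := fun n v => hN.1.m1 (j + n) v
        m2 := fun n v => hN.1.m2 (j + n) v
        m3 := fun n v => hN.1.m3 (j + n) v
        m4 := fun n v => hN.1.m4 (j + n) v }, fun n v => hN.2 (j + n) v⟩

/-- from the fourth to the second moment -/
theorem sq_of_four [IsProbabilityMeasure P] {f : Ω → ℝ} {B : ℝ} (hB : 0 ≤ B) (hf : MemLp f 4 P)
    (h : ∫ ω, f ω ^ 4 ∂P ≤ B ^ 2) : Sq P f B := by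
  have h2 : MemLp f 2 P := hf.mono_exponent (by norm_num)
  refine ⟨h2, ?_⟩
  have hi4 : Integrable (fun ω => f ω ^ 4) P := by
    have := hf.integrable_norm_pow (p := 4) (by norm_num)
    refine this.congr (Eventually.of_forall fun ω => ?_)
    simp only [Real.norm_eq_abs]
    exact Even.pow_abs (by decide) _
  have hnn : 0 ≤ ∫ ω, f ω ^ 2 ∂P := integral_nonneg fun ω => sq_nonneg _
  have hv : 0 ≤ ∫ ω, (f ω ^ 2 - ∫ ω', f ω' ^ 2 ∂P) ^ 2 ∂P := integral_nonneg fun ω => sq_nonneg _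
  have hi2 := h2.integrable_sq
  obtain ⟨m, hm⟩ : ∃ m : ℝ, m = ∫ ω, f ω ^ 2 ∂P := ⟨_, rfl⟩
  rw [← hm] at hv hnn ⊢
  have e : ∀ ω, (f ω ^ 2 - m) ^ 2 = (f ω ^ 4 + m ^ 2) - 2 * m * f ω ^ 2 := fun ω => by ring
  simp_rw [e] at hv
  have hiA : Integrable (fun ω => f ω ^ 4 + m ^ 2) P := hi4.add (integrable_const _)
  rw [integral_sub hiA (hi2.const_mul _),
    integral_add hi4 (integrable_const _), integral_const_mul, ← hm] at hv
  simp only [integral_const, probReal_univ, smul_eq_mul, one_mul] at hv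
  have h3 : m ^ 2 ≤ B ^ 2 := by nlinarith
  exact le_of_sq_le_sq h3 hB

/-! ## The theorem -/

theorem RR_mono (hRR : S_RR) {a b : ℕ} (h : a ≤ b) : RR a ≤ RR b := by
  have h1 := hRR.2.2.2.2.2.1 a b h
  have h2 : 0 ≤ Real.log (((b : ℝ) + 1) / ((a : ℝ) + 1)) := by
    apply Real.log_nonneg
    rw [le_div_iff₀ (by positivity)]
    have : (a : ℝ) ≤ b := by exact_mod_cast h
    linarith
  linarith

theorem e0_pos : 0 < e0 := by unfold e0; positivity

theorem t_WLD : S_WLD := by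
  intro hMK hGM hAP hMEAS hRR hWL3 hDE C0 κ θ1 c hC0 hκ hθ1 hce hc
  have he0 := e0_pos
  have hc0 : 0 < c := he0.trans_le hce
  obtain ⟨L3, hL3, HWL⟩ := hWL3 C0 κ c hC0 hκ hce (by linarith)
  obtain ⟨C1, hC1, HDE⟩ := hDE C0 κ θ1 hC0 hκ hθ1
  obtain ⟨C2, hC2, HAP⟩ := hAP C0 θ1 hC0 hθ1
  have hev1 := evA 19 (1 / 20) (by norm_num)
  obtain ⟨U0, hU0⟩ := eventually_atTop.1 hev1
  have h20c : 0 < 20 * c := by linarith
  obtain ⟨La, hLa⟩ := eventually_atTop.1 ((evA 20 c hc0).and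
    ((tendsto_rpow_atTop h20c).eventually (eventually_ge_atTop (max U0 1))))
  obtain ⟨Lb, hLb⟩ := eventually_atTop.1 ((evA 103 (1 / 400) (by norm_num)).and
    ((tendsto_rpow_atTop (by norm_num : (0 : ℝ) < 1 / 40)).eventually (eventually_ge_atTop 4)))
  obtain ⟨D, hD⟩ : ∃ D : ℝ, D = 2 * C1 * 4 ^ 17 * 8 + C2 ^ 100 := ⟨_, rfl⟩
  have hD0 : 0 ≤ D := by rw [hD]; positivity
  refine ⟨1 + L3 + C1 + C2 + |La| + |Lb| + 36 + D, by
    have := abs_nonneg La
    have := abs_nonneg Lb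
    linarith, ?_⟩
  intro N0 M _ W hW Ω _ P _ s2 η w t T N L L' hs2 hNI hL hL' hLL hRt hd1 hd2 htN hN0 hθ hgood
  have hal := abs_nonneg La
  have hbl := abs_nonneg Lb
  have hal' := le_abs_self La
  have hbl' := le_abs_self Lb
  have hRm : RR t ≤ RR (t + T) := RR_mono hRR (Nat.le_add_right t T)
  have hL'L : L' ≤ L := by rw [hL, hL']; linarith
  obtain ⟨X, hX⟩ : ∃ X : ℝ, X = 1 / s2 := ⟨_, rfl⟩
  have hX0 : 0 < X := by rw [hX]; positivity
  rw [← hX] at hRt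
  have hRt0 : 0 ≤ RR t := le_trans (Real.rpow_nonneg hX0.le _) hRt
  have hLX : L ≤ X := by rw [hL, hX]; linarith
  have hL'1 : 1 ≤ L' := by linarith
  have hL1 : 1 ≤ L := hL'1.trans hL'L
  have hX1 : 1 ≤ X := hL1.trans hLX
  have hL0 : 0 < L := by linarith
  have hL'0 : 0 < L' := by linarith
  -- `L ≤ 2 L'`
  have h2L : L ≤ 2 * L' := by
    have h36 : 36 ≤ L := by linarith
    have hr : ∀ a : ℝ, a ≤ 1 / 2 → L ^ a ≤ L ^ (1 / 2 : ℝ) := fun a ha =>
      Real.rpow_le_rpow_of_exponent_le hL1 ha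
    have hsq : L ^ (1 / 2 : ℝ) * L ^ (1 / 2 : ℝ) = L := by
      rw [← Real.rpow_add hL0]; norm_num
    have hnn : 0 ≤ L ^ (1 / 2 : ℝ) := Real.rpow_nonneg hL0.le _
    have ha := hr c (by linarith)
    have hb := hr (2 * e0) (by linarith)
    have hLd : L - L' = RR (t + T) - RR t := by rw [hL, hL']; ring
    obtain ⟨q, hq⟩ : ∃ q : ℝ, q = L ^ (1 / 2 : ℝ) := ⟨_, rfl⟩
    rw [← hq] at hsq hnn ha hb
    have h6 : 6 ≤ q := by
      by_contra hlt
      push Not at hlt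
      have : q * q < 6 * 6 := mul_self_lt_mul_self hnn hlt
      linarith
    have h7 : 6 * q ≤ q * q := mul_le_mul_of_nonneg_right h6 hnn
    linarith
  -- the levels
  obtain ⟨b, hb⟩ : ∃ b : ℝ, b = L' ^ (20 * c) := ⟨_, rfl⟩
  obtain ⟨ha1, ha2⟩ := hLa L' (by linarith)
  have hbU : max U0 1 ≤ b := by rw [hb]; exact ha2
  have hb1 : 1 ≤ b := (le_max_right _ _).trans hbU
  obtain ⟨hb1', hb2'⟩ := hLb X (by linarith)
  -- comparison of `b` with `RR t`
  obtain ⟨Y, hY⟩ : ∃ Y : ℝ, Y = X ^ (1 / 40 : ℝ) := ⟨_, rfl⟩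
  have hY4 : 4 ≤ Y := by rw [hY]; exact hb2'
  have hY2 : X ^ (1 / 20 : ℝ) = Y * Y := by
    rw [hY, ← Real.rpow_add hX0]; norm_num
  have hbY : b ≤ Y := by
    rw [hb, hY]
    calc L' ^ (20 * c) ≤ X ^ (20 * c) := Real.rpow_le_rpow hL'0.le (hL'L.trans hLX) h20c.le
      _ ≤ X ^ (1 / 40 : ℝ) := Real.rpow_le_rpow_of_exponent_le hX1 (by linarith)
  have hYR : Y * Y ≤ RR t := by rw [← hY2]; exact hRt
  have h4Y : 4 * Y ≤ Y * Y := mul_le_mul_of_nonneg_right hY4 (by linarith)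
  have hbR : b ≤ RR t / 4 := by linarith
  obtain ⟨K, hK⟩ : ∃ K : ℕ, K = ⌊RR t / 4 - b⌋₊ := ⟨_, rfl⟩
  have hK1 : (K : ℝ) ≤ RR t / 4 - b := by rw [hK]; exact Nat.floor_le (by linarith)
  have hK2 : RR t / 4 - b < (K : ℝ) + 1 := by rw [hK]; exact Nat.lt_floor_add_one _
  have hK3 : RR t / 8 ≤ b + K := by linarith
  -- `L ^ (20 c) / 4 ≤ b`
  have hLb4 : L ^ (20 * c) / 4 ≤ b := by
    have h1 : L ^ (20 * c) ≤ (2 * L') ^ (20 * c) := Real.rpow_le_rpow hL0.le h2L h20c.le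
    rw [Real.mul_rpow (by norm_num) hL'0.le, ← hb] at h1
    have h2 : (2 : ℝ) ^ (20 * c) ≤ 2 := by
      calc (2 : ℝ) ^ (20 * c) ≤ (2 : ℝ) ^ (1 : ℝ) :=
            Real.rpow_le_rpow_of_exponent_le (by norm_num) (by linarith)
        _ = 2 := Real.rpow_one 2
    have h3 := mul_le_mul_of_nonneg_right h2 (by linarith : 0 ≤ b)
    linarith
  have hNI' := noiseI_shift hNI (N - (t + T))
  obtain ⟨j, hj⟩ : ∃ j : ℕ, j = N - (t + T) := ⟨_, rfl⟩
  rw [← hj] at hNI'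
  rw [← hj]
  obtain ⟨G, hG⟩ : ∃ G : ℕ → Set (ZMod M × ZMod M → ℝ),
      G = fun (i : ℕ) => {w' | Good W (t + T) (Real.exp (b + i)) w'} := ⟨_, rfl⟩
  have hGmem : ∀ i w', w' ∈ G i ↔ Good W (t + T) (Real.exp (b + i)) w' := by
    intro i w'; rw [hG]; rfl
  have hGmeas : ∀ i, MeasurableSet (G i) := by
    intro i; rw [hG]; exact hGM _ C0 N0 W (t + T) _
  have hGmono : ∀ i, G i ⊆ G (i + 1) := by
    intro i w' hw'
    rw [hGmem] at hw' ⊢
    refine good_mono hw' (Real.exp_le_exp.2 ?_)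
    push_cast
    linarith
  have h4m : 4 * (t + T) ≤ N0 := by omega
  -- the tail
  have htail : ∀ i : ℕ, i ≤ K → P.real {ω | ¬ Good W (t + T) (Real.exp (b + i))
      (nw W T w (sft j (cfg η ω)))} ≤ Real.exp (-((b + i) ^ (1 / 20 : ℝ))) := by
    intro i hi
    have hi' : (i : ℝ) ≤ K := by exact_mod_cast hi
    have hi0 : (0 : ℝ) ≤ i := Nat.cast_nonneg i
    exact HWL N0 M W hW Ω P s2 (fun n v => η (j + n) v) w t T L L' (b + i) hs2 hNI' hL hL'
      (by linarith) (by rw [← hX]; exact hRt) hd1 hd2 h4m hgood (by linarith) (by linarith)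
  -- properties of `lgZ`
  obtain ⟨-, -, hcut, hZm, -⟩ := hMEAS _ C0 N0 W Ω P s2 κ η hNI.1
  have hFcut : ∀ w' x, lgZ W j w' x = lgZ W j w' (cut j x) := by
    intro w' x
    unfold lgZ
    rw [← hcut x j]
  have hFm : Measurable (fun p : (ZMod M × ZMod M → ℝ) × (ℕ → ZMod M × ZMod M → ℝ) =>
      lgZ W j p.1 p.2) := by
    unfold lgZ
    refine Real.measurable_log.comp ?_
    refine Finset.measurable_sum _ fun y _ => ?_
    exact ((measurable_pi_apply y).comp measurable_fst).mul ((hZm j y).comp measurable_snd)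
  have hmk := fun (S : Set (ZMod M × ZMod M → ℝ)) (v : ℝ) (hS : MeasurableSet S) (hv : 0 ≤ v) h =>
    ((hMK _ C0 N0 W Ω P s2 κ η w j T hNI.1 hgood.nonneg hgood.sum).2 S
      (fun w' x => lgZ W j w' x) v 0 hS hFm hFcut hv h).1
  have hs2C : ∀ C : ℝ, 1 ≤ C → C ≤ L' → s2 ≤ 1 / C := by
    intro C hC hCL
    have h1 : C ≤ 1 / s2 := by rw [← hX]; linarith
    rw [le_div_iff₀ (by linarith)]
    rw [le_div_iff₀ hs2] at h1
    linarith
  have hRN : RR j ≤ RR N := RR_mono hRR (by omega)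
  -- one level
  have hlev : ∀ i < K, Sq P (fun ω => (G (i + 1) \ G i).indicator (fun w' => lgZ W j w' (cfg η ω))
      (nw W T w (sft j (cfg η ω)))) (C1 * (1 + (b + i + 1) + L') ^ 17 *
        Real.exp (-((b + i) ^ (1 / 20 : ℝ)))) := by
    intro i hi
    have hi' : (i : ℝ) + 1 ≤ K := by exact_mod_cast hi
    have hi0 : (0 : ℝ) ≤ i := Nat.cast_nonneg i
    refine sq_mono (hmk (G (i + 1) \ G i) (C1 * (1 + (b + i + 1) + L') ^ 17)
      ((hGmeas _).diff (hGmeas _)) (by positivity) ?_) ?_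
    · intro w' hw' _ _ _
      have hw'' := (hGmem _ _).1 hw'.1
      have e : b + ((i + 1 : ℕ) : ℝ) = b + i + 1 := by push_cast; ring
      rw [e] at hw''
      have h1 := HDE N0 M W hW Ω P s2 η w' (t + T) N (b + i + 1) hs2
        (hs2C C1 hC1 (by linarith)) hNI (by rw [← hX]; exact hRt.trans hRm) htN (by omega) hθ
        (by linarith) (by linarith) hw''
      rw [← hL', abs_of_pos hL'0, ← hj] at h1
      exact h1
    · refine mul_le_mul_of_nonneg_left ?_ (by positivity)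
      refine le_trans (measureReal_mono ?_) (htail i hi.le)
      intro ω hω
      exact fun hgd => hω.2 ((hGmem _ _).2 hgd)
  -- the last level
  have hlast : Sq P (fun ω => (G K)ᶜ.indicator (fun w' => lgZ W j w' (cfg η ω))
      (nw W T w (sft j (cfg η ω)))) ((C2 * X) ^ 100 * Real.exp (-((b + K) ^ (1 / 20 : ℝ)))) := by
    refine sq_mono (hmk (G K)ᶜ ((C2 * X) ^ 100) (hGmeas _).compl (by positivity) ?_) ?_
    · intro w' _ hnn hsum hcls
      have hcl := hcls t hgood.cls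
      obtain ⟨h1, h2⟩ := HAP N0 M W hW Ω P s2 κ η w' (t + T) j hs2 (hs2C C2 hC2 (by linarith)) hNI
        hnn hsum (fun x hx => hW.cls_rng (t + T) x (hcl x hx)) (by omega) (by linarith)
      refine sq_of_four (by positivity) h1 (h2.trans (le_of_eq ?_))
      rw [hX]
      ring
    · refine mul_le_mul_of_nonneg_left ?_ (by positivity)
      refine le_trans (measureReal_mono ?_) (htail K le_rfl)
      intro ω hω
      exact fun hgd => hω ((hGmem _ _).2 hgd)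
  have hall := sq_levels (fun ω w' => lgZ W j w' (cfg η ω))
    (fun ω => nw W T w (sft j (cfg η ω))) G hGmono _ K _ hlev hlast
  have hset : {w' | ¬ Good W (t + T) (Real.exp (L' ^ (20 * c))) w'} = (G 0)ᶜ := by
    ext w'
    rw [Set.mem_compl_iff, hGmem]
    simp only [Nat.cast_zero, add_zero, ← hb]
    exact Iff.rfl
  rw [hset]
  refine sq_mono hall ?_
  have hs1 := sum_terms (C := C1) (c := c) (U0 := max U0 1) (L := L') (b := b) (by linarith)
    (le_max_right _ _) (fun u hu => hU0 u ((le_max_left _ _).trans hu)) hL'1 ha1 hb hbU K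
  have hs2' := top_term (C := C2) (X := X) (b := b + K) hX1 hb1' (by
    rw [hY2]; linarith)
  have h3 : (L' ^ 3)⁻¹ ≤ 8 * (L ^ 3)⁻¹ := by
    have h4 : L ^ 3 ≤ (2 * L') ^ 3 := pow_le_pow_left₀ hL0.le h2L 3
    have h5 : ((2 * L') ^ 3)⁻¹ ≤ (L ^ 3)⁻¹ := inv_anti₀ (by positivity) h4
    have h6 : ((2 * L') ^ 3)⁻¹ = (L' ^ 3)⁻¹ / 8 := by
      rw [mul_pow, mul_inv]
      norm_num
      ring
    rw [h6] at h5
    linarith
  have h4 : (X ^ 3)⁻¹ ≤ (L ^ 3)⁻¹ := inv_anti₀ (by positivity) (pow_le_pow_left₀ hL0.le hLX 3)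
  have h5 : L ^ (-2 : ℝ) = L * (L ^ 3)⁻¹ := by
    rw [Real.rpow_neg hL0.le]
    norm_num
    field_simp
  rw [h5]
  calc ∑ i ∈ range K, C1 * (1 + (b + i + 1) + L') ^ 17 * Real.exp (-((b + i) ^ (1 / 20 : ℝ))) +
        (C2 * X) ^ 100 * Real.exp (-((b + K) ^ (1 / 20 : ℝ)))
      ≤ 2 * C1 * 4 ^ 17 * (L' ^ 3)⁻¹ + C2 ^ 100 * (X ^ 3)⁻¹ := add_le_add hs1 hs2'
    _ ≤ 2 * C1 * 4 ^ 17 * (8 * (L ^ 3)⁻¹) + C2 ^ 100 * (L ^ 3)⁻¹ :=
        add_le_add (mul_le_mul_of_nonneg_left h3 (by positivity))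
          (mul_le_mul_of_nonneg_left h4 (by positivity))
    _ = D * (L ^ 3)⁻¹ := by rw [hD]; ring
    _ ≤ L * (L ^ 3)⁻¹ := mul_le_mul_of_nonneg_right (by linarith) (by positivity)

end Pool.Agent.H282.CW.WLD
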